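import Pool.Agent.Y721.TW.Psi

set_option autoImplicit false

/-! The component of the diagonal in the fibre product. -/

namespace Pool.Agent.Y721.TW

open Pool.Agent.Results.MP_75c46b_gt.Full

/-- in a compact Hausdorff space a closed set that misses a component is separated from it by a
clopen set -/
theorem clopen_sep {Q : Type*} [TopologicalSpace Q] [CompactSpace Q] [T2Space Q] (q : Q)
    (F : Set Q) (hF : IsClosed F) (hd : ∀ z ∈ F, z ∉ connectedComponent q) :
    ∃ U : Set Q, IsClopen U ∧ q ∈ U ∧ ∀ z ∈ F, z ∉ U := by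
  classical
  have h1 : ∀ z ∈ F, ∃ s : Set Q, IsClopen s ∧ q ∈ s ∧ z ∉ s := by
    intro z hz
    have h2 := hd z hz
    rw [connectedComponent_eq_iInter_isClopen] at h2
    simp only [Set.mem_iInter, not_forall] at h2
    obtain ⟨⟨s, hs, hqs⟩, hzs⟩ := h2
    exact ⟨s, hs, hqs, hzs⟩
  choose! s hs using h1
  obtain ⟨t, htF⟩ := hF.isCompact.elim_nhds_subcover' (fun z _ => (s z)ᶜ)
    (fun z hz => (hs z hz).1.compl.isOpen.mem_nhds (hs z hz).2.2)
  refine ⟨⋂ z ∈ t, s (z : Q), ?_, ?_, ?_⟩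
  · exact isClopen_biInter_finset (fun z _ => (hs z.1 z.2).1)
  · simp only [Set.mem_iInter]
    intro z _
    exact (hs z.1 z.2).2.1
  · intro z hz hzU
    obtain ⟨i, hi, hzi⟩ := Set.mem_iUnion₂.1 (htF hz)
    simp only [Set.mem_iInter] at hzU
    exact hzi (hzU i hi)

/-- the fibre product -/
def Fib {X Y : Type*} (f : X → Y) : Set (X × X) := {z | f z.1 = f z.2}

theorem comp {X Y : Type*} [MetricSpace X] [CompactSpace X] [ConnectedSpace X]
    [MetricSpace Y] [CompactSpace Y]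
    (hY : ∀ ε : ℝ, 0 < ε → ∃ g : Y → ℝ, Continuous g ∧ ∀ t, Metric.diam (g ⁻¹' {t}) ≤ ε)
    (f : X → Y) (hf : Continuous f) :
    ∃ K : Set (X × X), IsCompact K ∧ IsConnected K ∧ (∀ z ∈ K, f z.1 = f z.2) ∧
      (∀ x : X, (x, x) ∈ K) ∧ (∀ x y : X, (x, y) ∈ K → (y, x) ∈ K) ∧
      ∀ a : ℝ, 0 ≤ a → a ≤ width X → ∃ x y : X, (x, y) ∈ K ∧ dist x y = a := by
  classical
  have hQ : IsClosed (Fib f) :=
    isClosed_eq (hf.comp continuous_fst) (hf.comp continuous_snd)
  haveI : CompactSpace (Fib f) := isCompact_iff_compactSpace.1 hQ.isCompact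
  obtain ⟨x0⟩ : Nonempty X := inferInstance
  let δ : X → Fib f := fun x => ⟨(x, x), rfl⟩
  have hδ : Continuous δ := (continuous_id.prodMk continuous_id).subtype_mk _
  set K0 : Set (Fib f) := connectedComponent (δ x0) with hK0
  have hdiag : ∀ x, δ x ∈ K0 := by
    intro x
    have h1 : IsPreconnected (Set.range δ) := isPreconnected_range hδ
    exact h1.subset_connectedComponent ⟨x0, rfl⟩ ⟨x, rfl⟩
  -- the component reaches every distance with the property of the width
  have hreach : ∀ a' : ℝ, WidthProp X a' → ∃ z ∈ K0, a' ≤ dist z.1.1 z.1.2 := by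
    intro a' hw
    by_contra hcon
    push Not at hcon
    have hFc : IsClosed {z : Fib f | a' ≤ dist z.1.1 z.1.2} :=
      isClosed_le continuous_const (by fun_prop)
    obtain ⟨U, hU, hxU, hUF⟩ := clopen_sep (δ x0) {z : Fib f | a' ≤ dist z.1.1 z.1.2} hFc
      (fun z hz hzK => absurd hz (not_le.2 (hcon z hzK)))
    have hUdiag : ∀ x, δ x ∈ U := by
      intro x
      have h1 : δ ⁻¹' U = Set.univ := (hU.preimage hδ).eq_univ ⟨x0, hxU⟩
      have h2 : x ∈ δ ⁻¹' U := by rw [h1]; trivial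
      exact h2
    have hval : Topology.IsClosedEmbedding (Subtype.val : Fib f → X × X) :=
      hQ.isClosedEmbedding_subtypeVal
    have hA1 : IsClosed (Subtype.val '' U : Set (X × X)) := hval.isClosedMap _ hU.isClosed
    have hA2 : IsClosed ((Subtype.val '' Uᶜ : Set (X × X)) ∪ {z | a' ≤ dist z.1 z.2}) :=
      (hval.isClosedMap _ hU.compl.isClosed).union
        (isClosed_le continuous_const (continuous_fst.dist continuous_snd))
    have hdis : Disjoint (Subtype.val '' U : Set (X × X))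
        ((Subtype.val '' Uᶜ : Set (X × X)) ∪ {z | a' ≤ dist z.1 z.2}) := by
      rw [Set.disjoint_left]
      rintro _ ⟨z, hz, rfl⟩ (⟨w, hw', hwz⟩ | h)
      · exact hw' (by rw [Subtype.ext hwz]; exact hz)
      · exact hUF z h hz
    obtain ⟨ψ, hψ0, hψ1, -⟩ := exists_continuous_zero_one_of_isClosed hA1 hA2 hdis
    have hψQ : ∀ z : X × X, ψ z - 1 / 2 = 0 → f z.1 ≠ f z.2 := by
      intro z hz hfz
      by_cases hzU : (⟨z, hfz⟩ : Fib f) ∈ U
      · have h1 : ψ z = 0 := hψ0 ⟨⟨z, hfz⟩, hzU, rfl⟩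
        rw [h1] at hz; norm_num at hz
      · have h1 : ψ z = 1 := hψ1 (Or.inl ⟨⟨z, hfz⟩, hzU, rfl⟩)
        rw [h1] at hz; norm_num at hz
    have hψc : Continuous (fun z : X × X => ψ z - 1 / 2) := by fun_prop
    have hKc : IsCompact {z : X × X | ψ z - 1 / 2 = 0} :=
      (isClosed_eq hψc continuous_const).isCompact
    obtain ⟨m, hm0, hm⟩ : ∃ m : ℝ, 0 < m ∧ ∀ z : X × X, ψ z - 1 / 2 = 0 →
        m ≤ dist (f z.1) (f z.2) := by
      by_cases hKe : {z : X × X | ψ z - 1 / 2 = 0}.Nonempty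
      · have hG : Continuous (fun z : X × X => dist (f z.1) (f z.2)) := by fun_prop
        obtain ⟨z, hz, hzm⟩ := hKc.exists_isMinOn hKe hG.continuousOn
        exact ⟨dist (f z.1) (f z.2), dist_pos.mpr (hψQ z hz), fun w hw' => hzm hw'⟩
      · exact ⟨1, one_pos, fun w hw' => absurd ⟨w, hw'⟩ hKe⟩
    obtain ⟨g, hg, hgd⟩ := hY (m / 2) (by linarith)
    obtain ⟨x, y, hxy, hgxy⟩ := main_psi (fun x => g (f x)) (hg.comp hf)
      (fun z => ψ z - 1 / 2) hψc a'
      (fun x => by
        have h1 : ψ (x, x) = 0 := hψ0 ⟨δ x, hUdiag x, rfl⟩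
        show ψ (x, x) - 1 / 2 < 0
        rw [h1]; norm_num)
      (fun x y hxy => by
        have h1 : ψ (x, y) = 1 := hψ1 (Or.inr hxy)
        show 0 ≤ ψ (x, y) - 1 / 2
        rw [h1]; norm_num) hw
    have h1 := hm (x, y) hxy
    have h3 : dist (f x) (f y) ≤ Metric.diam (g ⁻¹' {g (f y)}) :=
      Metric.dist_le_diam_of_mem Metric.isBounded_of_compactSpace
        (by simpa using hgxy) (by simp)
    have h4 := hgd (g (f y))
    simp only at h1
    linarith
  have hK0c : IsClosed K0 := isClosed_connectedComponent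
  have hK0k : IsCompact K0 := hK0c.isCompact
  have hK0conn : IsConnected K0 := isConnected_connectedComponent
  have hKcomp : IsCompact (Subtype.val '' K0 : Set (X × X)) :=
    hK0k.image continuous_subtype_val
  have hKconn : IsConnected (Subtype.val '' K0 : Set (X × X)) :=
    hK0conn.image _ continuous_subtype_val.continuousOn
  have hdist : Continuous (fun z : X × X => dist z.1 z.2) := by fun_prop
  refine ⟨Subtype.val '' K0, hKcomp, hKconn, ?_, ?_, ?_, ?_⟩
  · rintro _ ⟨z, _, rfl⟩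
    exact z.2
  · intro x
    exact ⟨δ x, hdiag x, rfl⟩
  · rintro x y ⟨z, hz, hzxy⟩
    let σ : Fib f → Fib f := fun z => ⟨(z.1.2, z.1.1), z.2.symm⟩
    have hσ : Continuous σ :=
      ((continuous_snd.comp continuous_subtype_val).prodMk
        (continuous_fst.comp continuous_subtype_val)).subtype_mk _
    have h1 : IsPreconnected (σ '' K0) := hK0conn.isPreconnected.image _ hσ.continuousOn
    have h2 : σ '' K0 ⊆ K0 :=
      h1.subset_connectedComponent ⟨δ x0, hdiag x0, rfl⟩
    refine ⟨σ z, h2 ⟨z, hz, rfl⟩, ?_⟩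
    show (z.1.2, z.1.1) = (y, x)
    rw [hzxy]
  · intro a ha haw
    obtain ⟨zm, hzm, hmax⟩ := hKcomp.exists_isMaxOn ⟨(x0, x0), δ x0, hdiag x0, rfl⟩
      hdist.continuousOn
    have hD : width X ≤ dist zm.1 zm.2 := by
      unfold width
      refine Real.sSup_le ?_ dist_nonneg
      intro a' ha'
      obtain ⟨z, hz, hza⟩ := hreach a' ha'
      exact hza.trans (hmax ⟨z, hz, rfl⟩)
    have h1 := hKconn.isPreconnected.intermediate_value
      (show (x0, x0) ∈ (Subtype.val '' K0 : Set (X × X)) from ⟨δ x0, hdiag x0, rfl⟩) hzm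
      hdist.continuousOn
    have h2 : a ∈ Set.Icc (dist x0 x0) (dist zm.1 zm.2) := by
      rw [dist_self]
      exact ⟨ha, haw.trans hD⟩
    obtain ⟨z, hz, hza⟩ := h1 h2
    exact ⟨z.1, z.2, hz, hza⟩

end Pool.Agent.Y721.TW
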